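import Pool.Agent.H61.CMC.TargetsE1
import Pool.Agent.H14.CM4B.GI2

/-!
# The Gamma integral with powers (GI3)

Adapted from `Pool/Agent/H14/CM4B/GI2.lean`.
-/

set_option autoImplicit false

open MeasureTheory Set Filter NumberField NumberField.InfinitePlace NumberField.Units
  NumberField.Units.dirichletUnitTheorem Pool.Agent.H65.CM4 Pool.Agent.H65.CMC Pool.Agent.H25.HK
  Pool.Agent.H61.CM4 Pool.Agent.H61.CMC
open scoped Real

namespace Pool.Agent.H10.CMC1

/-- the integral in one variable -/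
theorem gi3_one (d : ℕ) (q : ℝ) (s : ℂ) (hq : 0 < q) (hs : 0 < s.re) :
    Integrable (fun y : ℝ => (((Real.exp y * q) ^ d *
      Real.exp (-(2 * π) * (Real.exp y * q)) : ℝ) : ℂ) * Complex.exp (s * y)) ∧
    ∫ y : ℝ, (((Real.exp y * q) ^ d *
      Real.exp (-(2 * π) * (Real.exp y * q)) : ℝ) : ℂ) * Complex.exp (s * y) =
      Complex.Gamma (s + d) * (2 * (π : ℂ)) ^ (-(s + d)) * ((q : ℝ) : ℂ) ^ (-s) := by
  have hs' : 0 < (s + d).re := by
    rw [Complex.add_re, Complex.natCast_re]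
    positivity
  obtain ⟨h1, h2⟩ := Pool.Agent.H14.CM4B.gi2_one q (s + d) hq hs'
  have hf : (fun y : ℝ => (((Real.exp y * q) ^ d *
      Real.exp (-(2 * π) * (Real.exp y * q)) : ℝ) : ℂ) * Complex.exp (s * y)) = (fun y : ℝ =>
      ((q : ℂ) ^ d) * ((Real.exp (-(2 * π) * (Real.exp y * q)) : ℂ) *
        Complex.exp ((s + d) * y))) := by
    funext y
    have e1 : Complex.exp ((s + d) * y) = Complex.exp (s * y) * Complex.exp y ^ d := by
      rw [add_mul, Complex.exp_add, Complex.exp_nat_mul]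
    rw [e1, Complex.ofReal_mul, Complex.ofReal_pow, Complex.ofReal_mul, mul_pow,
      Complex.ofReal_exp y]
    ring
  rw [hf]
  refine ⟨h1.const_mul _, ?_⟩
  rw [integral_const_mul, h2]
  have hq0 : (q : ℂ) ≠ 0 := by exact_mod_cast hq.ne'
  have e2 : ((q : ℝ) : ℂ) ^ (-(s + d)) = (q : ℂ) ^ (-s) * ((q : ℂ) ^ d)⁻¹ := by
    rw [neg_add, Complex.cpow_add _ _ hq0, Complex.cpow_neg _ (d : ℂ), Complex.cpow_natCast]
  rw [e2]
  have hqd : (q : ℂ) ^ d ≠ 0 := pow_ne_zero _ hq0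
  field_simp

open scoped Classical in
theorem pf_GI3 : T_GI3 := by
  intro k _ _ _ d q s hq hs
  obtain ⟨hy, -⟩ := Pool.Agent.H87.HK.yc_main k
  let f : Pl k → ℝ → ℂ := fun v y =>
    (((Real.exp y * q v) ^ d v * Real.exp (-(2 * π) * (Real.exp y * q v)) : ℝ) : ℂ) *
      Complex.exp (s * y)
  let g : (InfinitePlace k → ℝ) → ℂ := fun y => ∏ v, f v (y v)
  have hgi : Integrable g := by
    apply Integrable.fintype_prod
    intro v
    exact (gi3_one (d v) (q v) s (hq v) hs).1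
  have hgv : ∫ y, g y = (∏ v, (Complex.Gamma (s + d v) * (2 * (π : ℂ)) ^ (-(s + d v)))) *
      ((∏ v, q v : ℝ) : ℂ) ^ (-s) := by
    have h4 : ∫ y, g y = ∏ v : InfinitePlace k, ∫ y, f v y :=
      integral_fintype_prod_volume_eq_prod f
    rw [h4]
    have h5 : ∀ v : InfinitePlace k, ∫ y, f v y =
        Complex.Gamma (s + d v) * (2 * (π : ℂ)) ^ (-(s + d v)) * ((q v : ℝ) : ℂ) ^ (-s) := by
      intro v
      exact (gi3_one (d v) (q v) s (hq v) hs).2
    simp_rw [h5]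
    rw [Finset.prod_mul_distrib]
    congr 1
    rw [← Pool.Agent.H41.HK.prod_cpow_of_pos Finset.univ q (fun v _ => (hq v).le)]
  have hfun : (fun p : ℝ × logSpace k => g (yc k p.1 p.2)) = (fun p : ℝ × logSpace k =>
      (((∏ v, (Real.exp (yc k p.1 p.2 v) * q v) ^ d v) *
        Real.exp (-(2 * π) * ∑ v, Real.exp (yc k p.1 p.2 v) * q v) : ℝ) : ℂ) *
        Complex.exp (2 * s * p.1)) := by
    funext p
    simp only [g, f]
    rw [Finset.prod_mul_distrib]
    congr 1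
    · rw [← Complex.ofReal_prod, Finset.prod_mul_distrib, ← Real.exp_sum, Finset.mul_sum]
    · rw [← Complex.exp_sum]
      congr 1
      have h8 := hy p.1 p.2
      have h9 : ((∑ v, (v.mult : ℝ) * yc k p.1 p.2 v : ℝ) : ℂ) = ((2 * p.1 : ℝ) : ℂ) := by
        rw [h8]
      have h10 : (∑ v, (v.mult : ℝ) * yc k p.1 p.2 v) = ∑ v, yc k p.1 p.2 v := by
        refine Finset.sum_congr rfl fun v _ => ?_
        rw [(IsTotallyReal.isReal v).mult_eq_one, Nat.cast_one, one_mul]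
      rw [h10] at h9
      push_cast at h9
      rw [← Finset.mul_sum, h9]
      ring
  obtain ⟨h11, h12⟩ := Pool.Agent.H41.HK.ja k g hgi
  rw [hfun] at h11
  refine ⟨h11, ?_⟩
  have h13 : ∫ p : ℝ × logSpace k, (((∏ v, (Real.exp (yc k p.1 p.2 v) * q v) ^ d v) *
        Real.exp (-(2 * π) * ∑ v, Real.exp (yc k p.1 p.2 v) * q v) : ℝ) : ℂ) *
        Complex.exp (2 * s * p.1) =
      ∫ p : ℝ × logSpace k, g (yc k p.1 p.2) := by rw [hfun]
  have h14 : nrRealPlaces k = dg k := (IsTotallyReal.finrank (K := k)).symm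
  rw [h13, h12, hgv, h14]
  ring

end Pool.Agent.H10.CMC1
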